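import Pool.Agent.V5helper73.SZ.Stm

/-! # Project SZ, job GEO: the geometry of the tree -/

set_option autoImplicit false
open Complex Metric Set Filter Topology MeasureTheory

namespace V5helper12.SZ

open V5helper73.SZ

theorem norm_sub_sq (a z : ℂ) : ‖z - a‖ ^ 2 =
    ‖1 - (starRingEnd ℂ) a * z‖ ^ 2 - (1 - ‖a‖ ^ 2) * (1 - ‖z‖ ^ 2) := by
  rw [← Complex.normSq_eq_norm_sq, ← Complex.normSq_eq_norm_sq, ← Complex.normSq_eq_norm_sq,
    ← Complex.normSq_eq_norm_sq]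
  simp only [Complex.normSq_apply, Complex.sub_re, Complex.sub_im, Complex.one_re, Complex.one_im,
    Complex.mul_re, Complex.mul_im, Complex.conj_re, Complex.conj_im]
  ring

theorem one_sub_ne {a z : ℂ} (ha : a ∈ ball (0:ℂ) 1) (hz : z ∈ ball (0:ℂ) 1) :
    0 < ‖1 - (starRingEnd ℂ) a * z‖ := by
  rw [mem_ball_zero_iff] at ha hz
  have h1 : ‖(starRingEnd ℂ) a * z‖ < 1 := by
    rw [norm_mul, Complex.norm_conj]
    nlinarith [norm_nonneg a, norm_nonneg z]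
  have h2 : ‖(1:ℂ)‖ - ‖(starRingEnd ℂ) a * z‖ ≤ ‖1 - (starRingEnd ℂ) a * z‖ := norm_sub_norm_le _ _
  rw [norm_one] at h2
  linarith

theorem bm_le {a z : ℂ} (ha : a ∈ ball (0:ℂ) 1) (hz : z ∈ ball (0:ℂ) 1) {c : ℝ} (hc : 0 ≤ c)
    (h : (1 - c ^ 2) * ‖1 - (starRingEnd ℂ) a * z‖ ^ 2 ≤ (1 - ‖a‖ ^ 2) * (1 - ‖z‖ ^ 2)) :
    ‖bm a z‖ ≤ c := by
  have h0 := one_sub_ne ha hz
  unfold bm
  rw [norm_div, div_le_iff₀ h0]
  refine le_of_sq_le_sq ?_ (by positivity)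
  rw [norm_sub_sq a z]
  nlinarith

theorem le_bm {a z : ℂ} (ha : a ∈ ball (0:ℂ) 1) (hz : z ∈ ball (0:ℂ) 1)
    (h : (1 - ‖a‖ ^ 2) * (1 - ‖z‖ ^ 2) ≤ ‖z - a‖ ^ 2) : 1 / 2 ≤ ‖bm a z‖ := by
  have h0 := one_sub_ne ha hz
  unfold bm
  rw [norm_div, le_div_iff₀ h0]
  refine le_of_sq_le_sq ?_ (norm_nonneg _)
  have := norm_sub_sq a z
  nlinarith [sq_nonneg ‖z - a‖]

theorem norm_polar (ρ α : ℝ) (hρ : 0 ≤ ρ) : ‖(ρ : ℂ) * Complex.exp ((α : ℂ) * Complex.I)‖ = ρ := by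
  rw [norm_mul, Complex.norm_exp_ofReal_mul_I, mul_one, Complex.norm_real, Real.norm_of_nonneg hρ]

/-- the bound for `1 - conj a z` -/
theorem one_sub_le (ρ r α θ : ℝ) (hρ : 0 ≤ ρ) (hr : 0 ≤ r) (hρ1 : ρ ≤ 1) (hr1 : r ≤ 1) :
    ‖1 - (starRingEnd ℂ) ((ρ : ℂ) * Complex.exp ((α : ℂ) * Complex.I)) *
      ((r : ℂ) * Complex.exp ((θ : ℂ) * Complex.I))‖ ≤ (1 - ρ * r) + |θ - α| := by
  have h1 : (starRingEnd ℂ) ((ρ : ℂ) * Complex.exp ((α : ℂ) * Complex.I)) *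
      ((r : ℂ) * Complex.exp ((θ : ℂ) * Complex.I)) =
      ((ρ * r : ℝ) : ℂ) * Complex.exp (Complex.I * ((θ - α : ℝ) : ℂ)) := by
    rw [map_mul, Complex.conj_ofReal, ← Complex.exp_conj, map_mul, Complex.conj_ofReal, Complex.conj_I]
    have : Complex.exp (Complex.I * ((θ - α : ℝ) : ℂ)) =
        Complex.exp ((α : ℂ) * -Complex.I) * Complex.exp ((θ : ℂ) * Complex.I) := by
      rw [← Complex.exp_add]
      congr 1
      push_cast
      ring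
    rw [this]
    push_cast
    ring
  rw [h1]
  have h2 : (1 : ℂ) - ((ρ * r : ℝ) : ℂ) * Complex.exp (Complex.I * ((θ - α : ℝ) : ℂ)) =
      ((1 - ρ * r : ℝ) : ℂ) - ((ρ * r : ℝ) : ℂ) * (Complex.exp (Complex.I * ((θ - α : ℝ) : ℂ)) - 1) := by
    push_cast
    ring
  rw [h2]
  have h3 : ρ * r ≤ 1 := by nlinarith
  have h4 : 0 ≤ ρ * r := by positivity
  refine (norm_sub_le _ _).trans ?_
  rw [norm_mul, Complex.norm_real, Complex.norm_real, Real.norm_of_nonneg (by linarith),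
    Real.norm_of_nonneg h4]
  have h5 := Real.norm_exp_I_mul_ofReal_sub_one_le (x := θ - α)
  rw [Real.norm_eq_abs] at h5
  have h6 := abs_nonneg (θ - α)
  nlinarith [norm_nonneg (Complex.exp (Complex.I * ((θ - α : ℝ) : ℂ)) - 1)]

theorem pt_eq (k i : ℕ) : pt k i = (((1 - (1 / 2 : ℝ) ^ k : ℝ)) : ℂ) *
    Complex.exp (((2 * Real.pi * i / 2 ^ k : ℝ) : ℂ) * Complex.I) := rfl

theorem hk_pos (k : ℕ) : 0 < (1 / 2 : ℝ) ^ k := by positivity

theorem hk_le (k : ℕ) : (1 / 2 : ℝ) ^ k ≤ 1 := pow_le_one₀ (by norm_num) (by norm_num)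

theorem norm_pt (k i : ℕ) : ‖pt k i‖ = 1 - (1 / 2 : ℝ) ^ k := by
  rw [pt_eq]
  exact norm_polar _ _ (by linarith [hk_le k])

theorem pt_mem (k i : ℕ) : pt k i ∈ ball (0:ℂ) 1 := by
  rw [mem_ball_zero_iff, norm_pt]
  linarith [hk_pos k]

theorem part1 (k i : ℕ) : pt k i ∈ ball (0:ℂ) 1 ∧ (1 / 2 : ℝ) ^ k ≤ 1 - ‖pt k i‖ ^ 2 ∧
    1 - ‖pt k i‖ ^ 2 ≤ 2 * (1 / 2 : ℝ) ^ k := by
  refine ⟨pt_mem k i, ?_, ?_⟩
  · rw [norm_pt]
    nlinarith [hk_pos k, hk_le k]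
  · rw [norm_pt]
    nlinarith [hk_pos k, hk_le k]

/-- the upper bound for two polar points -/
theorem upper {h ρ r α θ c A B : ℝ} (hh : 0 < h) (hρ : 0 ≤ ρ) (hr : 0 ≤ r) (hρ1 : ρ < 1) (hr1 : r < 1)
    (hc : 0 ≤ c) (hc1 : c ≤ 1) (hA : 0 < A) (_hB : 0 ≤ B)
    (h1 : h ≤ 1 - ρ ^ 2) (h2 : A * h ≤ 1 - r ^ 2) (h3 : (1 - ρ * r) + |θ - α| ≤ B * h)
    (h4 : (1 - c ^ 2) * B ^ 2 ≤ A) :
    ‖bm ((ρ : ℂ) * Complex.exp ((α : ℂ) * Complex.I)) ((r : ℂ) * Complex.exp ((θ : ℂ) * Complex.I))‖ ≤ c := by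
  have m1 : (ρ : ℂ) * Complex.exp ((α : ℂ) * Complex.I) ∈ ball (0:ℂ) 1 := by
    rw [mem_ball_zero_iff, norm_polar _ _ hρ]
    exact hρ1
  have m2 : (r : ℂ) * Complex.exp ((θ : ℂ) * Complex.I) ∈ ball (0:ℂ) 1 := by
    rw [mem_ball_zero_iff, norm_polar _ _ hr]
    exact hr1
  refine bm_le m1 m2 hc ?_
  rw [norm_polar _ _ hρ, norm_polar _ _ hr]
  have h5 := (one_sub_le ρ r α θ hρ hr hρ1.le hr1.le).trans h3
  have h6 : ‖1 - (starRingEnd ℂ) ((ρ : ℂ) * Complex.exp ((α : ℂ) * Complex.I)) *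
      ((r : ℂ) * Complex.exp ((θ : ℂ) * Complex.I))‖ ^ 2 ≤ (B * h) ^ 2 :=
    pow_le_pow_left₀ (norm_nonneg _) h5 2
  have h7 : 0 ≤ 1 - c ^ 2 := by nlinarith
  calc (1 - c ^ 2) * _ ≤ (1 - c ^ 2) * (B * h) ^ 2 := mul_le_mul_of_nonneg_left h6 h7
    _ = ((1 - c ^ 2) * B ^ 2) * h ^ 2 := by ring
    _ ≤ A * h ^ 2 := mul_le_mul_of_nonneg_right h4 (by positivity)
    _ = h * (A * h) := by ring
    _ ≤ (1 - ρ ^ 2) * (1 - r ^ 2) := mul_le_mul h1 h2 (by positivity) (by linarith)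

theorem part2 (k i : ℕ) : ‖bm (pt k (i / 2)) (pt (k + 1) i)‖ ≤ 99 / 100 := by
  have hp := hk_pos k
  have hl := hk_le k
  rw [pt_eq, pt_eq]
  have e1 : (1 / 2 : ℝ) ^ (k + 1) = (1 / 2 : ℝ) ^ k / 2 := by
    rw [pow_succ]
    ring
  have e2 : (1 / 2 : ℝ) ^ k = 1 / 2 ^ k := by
    rw [div_pow, one_pow]
  rw [e1]
  set h : ℝ := (1 / 2 : ℝ) ^ k with hh
  have hang : |2 * Real.pi * (i : ℝ) / 2 ^ (k + 1) - 2 * Real.pi * ((i / 2 : ℕ) : ℝ) / 2 ^ k| ≤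
      Real.pi * h := by
    have e3 : 2 * Real.pi * (i : ℝ) / 2 ^ (k + 1) - 2 * Real.pi * ((i / 2 : ℕ) : ℝ) / 2 ^ k =
        Real.pi * h * ((i : ℝ) - 2 * ((i / 2 : ℕ) : ℝ)) := by
      rw [e2, pow_succ]
      field_simp
    have e4 : (i : ℝ) - 2 * ((i / 2 : ℕ) : ℝ) = ((i % 2 : ℕ) : ℝ) := by
      have := Nat.div_add_mod i 2
      have h5 : ((2 * (i / 2) + i % 2 : ℕ) : ℝ) = (i : ℝ) := by exact_mod_cast this
      push_cast at h5
      linarith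
    rw [e3, e4, abs_of_nonneg (by positivity)]
    have : ((i % 2 : ℕ) : ℝ) ≤ 1 := by
      have := Nat.mod_lt i (show 0 < 2 by norm_num)
      exact_mod_cast (by omega : i % 2 ≤ 1)
    have h6 : 0 ≤ Real.pi * h := by positivity
    nlinarith
  have hpi := Real.pi_lt_d2
  refine upper (h := h) (A := 1 / 2) (B := 47 / 10) hp (by linarith) (by linarith) (by linarith)
    (by linarith) (by norm_num) (by norm_num) (by norm_num) (by norm_num) ?_ ?_ ?_ (by norm_num)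
  · nlinarith
  · nlinarith
  · have h7 : (3.15 : ℝ) * h ≥ Real.pi * h := by nlinarith
    nlinarith

theorem part3 (k i i' : ℕ) (hk : 1 ≤ k) (hi : i < 2 ^ k) (hi' : i' < 2 ^ k) (hne : i ≠ i') :
    1 / 2 ≤ ‖bm (pt k i) (pt k i')‖ := by
  refine le_bm (pt_mem _ _) (pt_mem _ _) ?_
  have hp := hk_pos k
  have hhalf : (1 / 2 : ℝ) ^ k ≤ 1 / 2 := by
    calc (1 / 2 : ℝ) ^ k ≤ (1 / 2) ^ 1 := pow_le_pow_of_le_one (by norm_num) (by norm_num) hk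
      _ = 1 / 2 := by norm_num
  have e2 : (1 / 2 : ℝ) ^ k = 1 / 2 ^ k := by
    rw [div_pow, one_pow]
  rw [norm_pt, norm_pt]
  have e3 : pt k i' - pt k i = ((1 - (1 / 2 : ℝ) ^ k : ℝ) : ℂ) *
      Complex.exp (((2 * Real.pi * i / 2 ^ k : ℝ) : ℂ) * Complex.I) *
      (Complex.exp (Complex.I * ((2 * Real.pi * ((i' : ℝ) - i) / 2 ^ k : ℝ) : ℂ)) - 1) := by
    have e4 : Complex.exp (((2 * Real.pi * i' / 2 ^ k : ℝ) : ℂ) * Complex.I) =
        Complex.exp (((2 * Real.pi * i / 2 ^ k : ℝ) : ℂ) * Complex.I) *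
        Complex.exp (Complex.I * ((2 * Real.pi * ((i' : ℝ) - i) / 2 ^ k : ℝ) : ℂ)) := by
      rw [← Complex.exp_add]
      congr 1
      push_cast
      ring
    rw [pt_eq, pt_eq, e4]
    ring
  set h : ℝ := (1 / 2 : ℝ) ^ k with hh
  rw [e3, norm_mul, norm_polar _ _ (by linarith), Complex.norm_exp_I_mul_ofReal_sub_one]
  -- the sine
  have key : ∀ j : ℝ, 1 ≤ j → j + 1 ≤ 2 ^ k → 2 * h ≤ Real.sin (Real.pi * j / 2 ^ k) := by
    intro j hj1 hj2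
    have hp2 : (0 : ℝ) < 2 ^ k := by positivity
    have hpi := Real.pi_pos
    by_cases hc : 2 * j ≤ 2 ^ k
    · have h1 : Real.pi * j / 2 ^ k ≤ Real.pi / 2 := by
        rw [div_le_div_iff₀ hp2 (by norm_num)]
        nlinarith
      have h2 := Real.mul_le_sin (x := Real.pi * j / 2 ^ k) (by positivity) h1
      refine le_trans ?_ h2
      rw [e2]
      have : 2 / Real.pi * (Real.pi * j / 2 ^ k) = 2 * (j / 2 ^ k) := by
        field_simp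
      rw [this]
      have : 1 / (2 : ℝ) ^ k ≤ j / 2 ^ k := div_le_div_of_nonneg_right hj1 hp2.le
      linarith
    · have h0 : Real.sin (Real.pi * j / 2 ^ k) = Real.sin (Real.pi * (2 ^ k - j) / 2 ^ k) := by
        rw [← Real.sin_pi_sub]
        congr 1
        field_simp
      rw [h0]
      have h1 : Real.pi * (2 ^ k - j) / 2 ^ k ≤ Real.pi / 2 := by
        rw [div_le_div_iff₀ hp2 (by norm_num)]
        nlinarith
      have h3 : 0 ≤ Real.pi * (2 ^ k - j) / 2 ^ k := by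
        have : (0 : ℝ) ≤ 2 ^ k - j := by linarith
        positivity
      have h2 := Real.mul_le_sin h3 h1
      refine le_trans ?_ h2
      rw [e2]
      have : 2 / Real.pi * (Real.pi * (2 ^ k - j) / 2 ^ k) = 2 * ((2 ^ k - j) / 2 ^ k) := by
        field_simp
      rw [this]
      have : 1 / (2 : ℝ) ^ k ≤ (2 ^ k - j) / 2 ^ k := div_le_div_of_nonneg_right (by linarith) hp2.le
      linarith
  have hsin : 4 * h ≤ ‖2 * Real.sin (2 * Real.pi * ((i' : ℝ) - i) / 2 ^ k / 2)‖ := by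
    rw [Real.norm_eq_abs, abs_mul, abs_of_pos (by norm_num : (0 : ℝ) < 2)]
    rcases lt_or_gt_of_ne hne with hlt | hlt
    · have h1 : (1 : ℝ) ≤ (i' : ℝ) - i := by
        have : (i : ℝ) + 1 ≤ i' := by exact_mod_cast hlt
        linarith
      have h2 : ((i' : ℝ) - i) + 1 ≤ 2 ^ k := by
        have : (i' : ℝ) + 1 ≤ 2 ^ k := by exact_mod_cast hi'
        have h3 : (0 : ℝ) ≤ i := Nat.cast_nonneg _
        linarith
      have h3 := key _ h1 h2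
      have h4 : 2 * Real.pi * ((i' : ℝ) - i) / 2 ^ k / 2 = Real.pi * ((i' : ℝ) - i) / 2 ^ k := by ring
      rw [h4]
      have := le_abs_self (Real.sin (Real.pi * ((i' : ℝ) - i) / 2 ^ k))
      linarith
    · have h1 : (1 : ℝ) ≤ (i : ℝ) - i' := by
        have : (i' : ℝ) + 1 ≤ i := by exact_mod_cast hlt
        linarith
      have h2 : ((i : ℝ) - i') + 1 ≤ 2 ^ k := by
        have : (i : ℝ) + 1 ≤ 2 ^ k := by exact_mod_cast hi
        have h3 : (0 : ℝ) ≤ i' := Nat.cast_nonneg _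
        linarith
      have h3 := key _ h1 h2
      have h4 : 2 * Real.pi * ((i' : ℝ) - i) / 2 ^ k / 2 = -(Real.pi * ((i : ℝ) - i') / 2 ^ k) := by ring
      rw [h4, Real.sin_neg, abs_neg]
      have := le_abs_self (Real.sin (Real.pi * ((i : ℝ) - i') / 2 ^ k))
      linarith
  have h5 : 2 * h ≤ (1 - h) * ‖2 * Real.sin (2 * Real.pi * ((i' : ℝ) - i) / 2 ^ k / 2)‖ := by
    nlinarith
  have h6 : (2 * h) ^ 2 ≤ ((1 - h) * ‖2 * Real.sin (2 * Real.pi * ((i' : ℝ) - i) / 2 ^ k / 2)‖) ^ 2 :=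
    pow_le_pow_left₀ (by positivity) h5 2
  refine le_trans ?_ h6
  have h7 : 1 - (1 - h) ^ 2 ≤ 2 * h := by nlinarith
  have h8 : 0 ≤ 1 - (1 - h) ^ 2 := by nlinarith
  calc (1 - (1 - h) ^ 2) * (1 - (1 - h) ^ 2) ≤ (2 * h) * (2 * h) :=
        mul_le_mul h7 h7 h8 (by linarith)
    _ = (2 * h) ^ 2 := by ring

theorem part4 (k i : ℕ) (r θ : ℝ) (h1 : 1 - 2 * (1 / 2 : ℝ) ^ k ≤ r) (h2 : r ≤ 1 - (1 / 2 : ℝ) ^ k)
    (h3 : 0 ≤ r) (h4 : 2 * Real.pi * i / 2 ^ k ≤ θ) (h5 : θ ≤ 2 * Real.pi * (i + 1) / 2 ^ k) :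
    ‖bm (pt k i) (circleMap 0 r θ)‖ ≤ 995 / 1000 ∧ ‖bm (circleMap 0 r θ) (pt k i)‖ ≤ 995 / 1000 := by
  have hp := hk_pos k
  have hl := hk_le k
  have e0 : circleMap 0 r θ = (r : ℂ) * Complex.exp ((θ : ℂ) * Complex.I) := by
    simp [circleMap]
  have e2 : (1 / 2 : ℝ) ^ k = 1 / 2 ^ k := by
    rw [div_pow, one_pow]
  have hang : |θ - 2 * Real.pi * i / 2 ^ k| ≤ 2 * Real.pi * (1 / 2 : ℝ) ^ k := by
    rw [abs_of_nonneg (by linarith)]
    have : 2 * Real.pi * ((i : ℝ) + 1) / 2 ^ k = 2 * Real.pi * i / 2 ^ k + 2 * Real.pi * (1 / 2 : ℝ) ^ k := by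
      rw [e2]
      ring
    linarith
  rw [e0, pt_eq]
  set h : ℝ := (1 / 2 : ℝ) ^ k with hh
  have hpi := Real.pi_lt_d2
  have h6 : 2 * Real.pi * h ≤ 6.3 * h := by nlinarith
  have h7 : 1 - (1 - h) * r ≤ 3 * h := by nlinarith
  constructor
  · refine upper (h := h) (A := 1) (B := 93 / 10) hp (by linarith) h3 (by linarith)
      (by linarith) (by norm_num) (by norm_num) (by norm_num) (by norm_num) ?_ ?_ ?_ (by norm_num)
    · nlinarith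
    · nlinarith
    · linarith
  · refine upper (h := h) (A := 1) (B := 93 / 10) hp h3 (by linarith) (by linarith)
      (by linarith) (by norm_num) (by norm_num) (by norm_num) (by norm_num) ?_ ?_ ?_ (by norm_num)
    · nlinarith
    · nlinarith
    · rw [abs_sub_comm, mul_comm r]
      linarith

theorem t_GEO : S_GEO := ⟨part1, part2, part3, part4⟩

end V5helper12.SZ
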