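import Pool.Agent.V5helper73.SZ.Stm

/-! # Project SZ, job MEAN: integral means and sums over the tree -/

set_option autoImplicit false
open Complex Metric Set Filter Topology MeasureTheory

namespace V5helper12.SZ

open V5helper73.SZ

theorem circle_mem {r : ℝ} (hr : 0 ≤ r) (hr1 : r < 1) (θ : ℝ) : circleMap 0 r θ ∈ ball (0:ℂ) 1 := by
  rw [mem_ball_zero_iff]
  simp only [circleMap, zero_add, norm_mul, Complex.norm_exp_ofReal_mul_I, mul_one, Complex.norm_real,
    Real.norm_of_nonneg hr]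
  exact hr1

theorem norm_circle {r : ℝ} (hr : 0 ≤ r) (θ : ℝ) : ‖circleMap 0 r θ‖ = r := by
  simp only [circleMap, zero_add, norm_mul, Complex.norm_exp_ofReal_mul_I, mul_one, Complex.norm_real,
    Real.norm_of_nonneg hr]

/-- comparison on an arc -/
theorem arc (h2 : S_TWO) (h3 : S_GEO) {f : ℂ → ℂ} (hf : InS f) (m j : ℕ) (r θ : ℝ) (hr2 : 1 / 2 ≤ r)
    (h4 : 1 - 2 * (1 / 2 : ℝ) ^ m ≤ r) (h5 : r ≤ 1 - (1 / 2 : ℝ) ^ m)
    (h6 : 2 * Real.pi * j / 2 ^ m ≤ θ) (h7 : θ ≤ 2 * Real.pi * (j + 1) / 2 ^ m) :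
    ‖deriv f (circleMap 0 r θ)‖ ≤ 32000000 * ‖deriv f (pt m j)‖ ∧
    ‖f (pt m j)‖ ≤ 320001 * ‖f (circleMap 0 r θ)‖ := by
  have hp : 0 < (1 / 2 : ℝ) ^ m := by positivity
  have hr0 : 0 ≤ r := by linarith
  have hr1 : r < 1 := by linarith
  obtain ⟨g1, -, -, g4⟩ := h3
  obtain ⟨b1, b2⟩ := g4 m j r θ h4 h5 hr0 h6 h7
  obtain ⟨p1, p2, p3⟩ := g1 m j
  have hz := circle_mem hr0 hr1 θ
  have hzn := norm_circle hr0 θ
  set z := circleMap 0 r θ with hzdef
  set a := pt m j with hadef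
  set h : ℝ := (1 / 2 : ℝ) ^ m with hh
  obtain ⟨-, -, t3, -⟩ := h2 f hf.diff hf.inj a p1 z hz
  obtain ⟨-, t2, -, -⟩ := h2 f hf.diff hf.inj z hz a p1
  obtain ⟨t1, -, -, -⟩ := h2 f hf.diff hf.inj z hz 0 (mem_ball_self one_pos)
  have hdz : dd f z = ‖deriv f z‖ * (1 - ‖z‖ ^ 2) := rfl
  have hda : dd f a = ‖deriv f a‖ * (1 - ‖a‖ ^ 2) := rfl
  have hz2 : h ≤ 1 - ‖z‖ ^ 2 := by
    rw [hzn]
    nlinarith
  have n1 := norm_nonneg (deriv f z)
  have n2 := norm_nonneg (deriv f a)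
  have n3 := norm_nonneg (bm a z)
  have n4 := norm_nonneg (bm z a)
  have hddz : 0 ≤ dd f z := by
    rw [hdz]
    exact mul_nonneg n1 (by linarith)
  constructor
  · have c1 : (1 / 200 : ℝ) ^ 3 ≤ (1 - ‖bm a z‖) ^ 3 := pow_le_pow_left₀ (by norm_num) (by linarith) 3
    have c2 : dd f z * (1 / 200 : ℝ) ^ 3 ≤ 2 * dd f a :=
      (mul_le_mul_of_nonneg_left c1 hddz).trans t3
    have c3 : ‖deriv f z‖ * h ≤ dd f z := by
      rw [hdz]
      exact mul_le_mul_of_nonneg_left hz2 n1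
    have c4 : dd f a ≤ ‖deriv f a‖ * (2 * h) := by
      rw [hda]
      exact mul_le_mul_of_nonneg_left p3 n2
    have c5 : ‖deriv f z‖ * h ≤ (32000000 * ‖deriv f a‖) * h := by nlinarith
    exact le_of_mul_le_mul_right c5 hp
  · have hb0 : ‖bm z 0‖ = r := by
      unfold bm
      rw [zero_sub, mul_zero, sub_zero, div_one, norm_neg, hzn]
    rw [hb0, hf.zero, zero_sub, norm_neg] at t1
    have c1 : (1 / 200 : ℝ) ^ 2 ≤ (1 - ‖bm z a‖) ^ 2 := pow_le_pow_left₀ (by norm_num) (by linarith) 2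
    have c2 : ‖f a - f z‖ * (1 / 200 : ℝ) ^ 2 ≤ dd f z := by
      have := mul_le_mul_of_nonneg_left c1 (norm_nonneg (f a - f z))
      have c3 : dd f z * ‖bm z a‖ ≤ dd f z * 1 := mul_le_mul_of_nonneg_left (by linarith) hddz
      linarith
    have c4 : dd f z ≤ 8 * ‖f z‖ := by nlinarith
    have c5 : ‖f a‖ ≤ ‖f a - f z‖ + ‖f z‖ := by
      have := norm_add_le (f a - f z) (f z)
      rwa [sub_add_cancel] at this
    nlinarith

theorem t_MEAN (_h1 : S_KT) (h2 : S_TWO) (h3 : S_GEO) : S_MEAN := by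
  intro α β hα hβ
  refine ⟨32000000 ^ α * 320001 ^ β, by positivity, fun f hf m r hr2 h4 h5 => ?_⟩
  have hp : 0 < (1 / 2 : ℝ) ^ m := by positivity
  have hr0 : 0 ≤ r := by linarith
  have hr1 : r < 1 := by linarith
  have e2 : (1 / 2 : ℝ) ^ m = 1 / 2 ^ m := by
    rw [div_pow, one_pow]
  set h : ℝ := (1 / 2 : ℝ) ^ m with hh
  have hhalf : h ≤ 1 / 2 := by linarith
  have p1 : ∀ j, pt m j ∈ ball (0:ℂ) 1 := fun j => (h3.1 m j).1
  -- `f` does not vanish except at `0`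
  have hne : ∀ z ∈ ball (0:ℂ) 1, z ≠ 0 → f z ≠ 0 := fun z hz hz0 h0 =>
    hz0 (hf.inj hz (mem_ball_self one_pos) (h0.trans hf.zero.symm))
  have hpt0 : ∀ j, pt m j ≠ 0 := by
    intro j h0
    have := (h3.1 m j).2.2
    rw [h0, norm_zero] at this
    have hm : m = 1 := by
      by_contra hm
      rcases Nat.lt_or_gt_of_ne hm with h' | h'
      · have : m = 0 := by omega
        subst this
        norm_num [hh] at hhalf
      · have : (1 / 2 : ℝ) ^ m ≤ (1 / 2) ^ 2 := pow_le_pow_of_le_one (by norm_num) (by norm_num) h'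
        norm_num at this
        linarith
    subst hm
    have h8 : pt 1 j = (((1 - (1 / 2 : ℝ) ^ 1 : ℝ)) : ℂ) *
        Complex.exp (((2 * Real.pi * j / 2 ^ 1 : ℝ) : ℂ) * Complex.I) := rfl
    rw [h8] at h0
    rcases mul_eq_zero.1 h0 with h9 | h9
    · have : (1 - (1 / 2 : ℝ) ^ 1 : ℝ) = 0 := by exact_mod_cast h9
      norm_num at this
    · exact Complex.exp_ne_zero _ h9
  set g : ℝ → ℝ := fun θ => ‖deriv f (circleMap 0 r θ)‖ ^ α * ‖f (circleMap 0 r θ)‖ ^ (-β) with hg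
  -- continuity
  have hcirc : Continuous (fun θ => circleMap (0:ℂ) r θ) := continuous_circleMap 0 r
  have hcf : Continuous (fun θ => f (circleMap 0 r θ)) :=
    (hf.diff.continuousOn.comp_continuous hcirc (circle_mem hr0 hr1))
  have hcd : Continuous (fun θ => deriv f (circleMap 0 r θ)) := by
    have hd : ContinuousOn (deriv f) (ball 0 1) :=
      (hf.diff.deriv isOpen_ball).continuousOn
    exact hd.comp_continuous hcirc (circle_mem hr0 hr1)
  have hfne : ∀ θ, f (circleMap 0 r θ) ≠ 0 := fun θ => hne _ (circle_mem hr0 hr1 θ) (by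
    intro h0
    have := norm_circle hr0 θ
    rw [h0, norm_zero] at this
    linarith)
  have hgc : Continuous g := by
    refine Continuous.mul (hcd.norm.rpow_const fun θ => Or.inr hα) (hcf.norm.rpow_const fun θ => Or.inl ?_)
    exact norm_ne_zero_iff.2 (hfne θ)
  -- the partition
  set p : ℕ → ℝ := fun j => 2 * Real.pi * j / 2 ^ m with hpdef
  have hsum := intervalIntegral.sum_integral_adjacent_intervals (a := p) (n := 2 ^ m) (f := g)
    (μ := volume) (fun k _ => hgc.intervalIntegrable _ _)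
  have hp0 : p 0 = 0 := by simp [hpdef]
  have hpn : p (2 ^ m) = 2 * Real.pi := by
    simp only [hpdef]
    push_cast
    field_simp
  rw [hp0, hpn] at hsum
  have hlen : ∀ j, p (j + 1) - p j = 2 * Real.pi * h := by
    intro j
    simp only [hpdef, e2]
    push_cast
    ring
  have hpi := Real.pi_pos
  have hle : ∀ j, p j ≤ p (j + 1) := fun j => by
    have := hlen j
    have : 0 < 2 * Real.pi * h := by positivity
    linarith [hlen j]
  have hpiece : ∀ j, ∫ θ in (p j)..(p (j + 1)), g θ ≤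
      (32000000 ^ α * 320001 ^ β * (‖deriv f (pt m j)‖ ^ α * ‖f (pt m j)‖ ^ (-β))) * (2 * Real.pi * h) := by
    intro j
    have h8 : ∀ θ ∈ Set.uIoc (p j) (p (j + 1)), ‖g θ‖ ≤
        32000000 ^ α * 320001 ^ β * (‖deriv f (pt m j)‖ ^ α * ‖f (pt m j)‖ ^ (-β)) := by
      intro θ hθ
      rw [Set.uIoc_of_le (hle j)] at hθ
      obtain ⟨a1, a2⟩ := arc h2 h3 hf m j r θ hr2 h4 h5 hθ.1.le (by
        have := hθ.2
        simp only [hpdef] at this
        push_cast at this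
        exact this)
      have hfa : 0 < ‖f (pt m j)‖ := norm_pos_iff.2 (hne _ (p1 j) (hpt0 j))
      have hfz : 0 < ‖f (circleMap 0 r θ)‖ := norm_pos_iff.2 (hfne θ)
      have b1 : ‖deriv f (circleMap 0 r θ)‖ ^ α ≤ 32000000 ^ α * ‖deriv f (pt m j)‖ ^ α := by
        rw [← Real.mul_rpow (by norm_num) (norm_nonneg _)]
        exact Real.rpow_le_rpow (norm_nonneg _) a1 hα
      have b2 : ‖f (circleMap 0 r θ)‖ ^ (-β) ≤ 320001 ^ β * ‖f (pt m j)‖ ^ (-β) := by
        have h9 : ‖f (pt m j)‖ / 320001 ≤ ‖f (circleMap 0 r θ)‖ := by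
          rw [div_le_iff₀ (by norm_num)]
          linarith
        have h10 : ‖f (circleMap 0 r θ)‖ ^ (-β) ≤ (‖f (pt m j)‖ / 320001) ^ (-β) :=
          Real.rpow_le_rpow_of_nonpos (by positivity) h9 (by linarith)
        refine h10.trans (le_of_eq ?_)
        rw [Real.div_rpow hfa.le (by norm_num), Real.rpow_neg (by norm_num : (0:ℝ) ≤ 320001) β]
        field_simp
      have hgn : ‖g θ‖ = g θ := Real.norm_of_nonneg (by
        simp only [hg]
        positivity)
      rw [hgn]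
      calc g θ ≤ (32000000 ^ α * ‖deriv f (pt m j)‖ ^ α) * (320001 ^ β * ‖f (pt m j)‖ ^ (-β)) :=
            mul_le_mul b1 b2 (by positivity) (by positivity)
        _ = _ := by ring
    have h11 := intervalIntegral.norm_integral_le_of_norm_le_const h8
    rw [hlen j, abs_of_nonneg (by positivity)] at h11
    exact (le_abs_self _).trans h11
  have htot : ∫ θ in (0:ℝ)..(2 * Real.pi), g θ ≤ ∑ j ∈ Finset.range (2 ^ m),
      (32000000 ^ α * 320001 ^ β * (‖deriv f (pt m j)‖ ^ α * ‖f (pt m j)‖ ^ (-β))) * (2 * Real.pi * h) := by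
    rw [← hsum]
    exact Finset.sum_le_sum fun j _ => hpiece j
  calc (1 / (2 * Real.pi)) * ∫ θ in (0:ℝ)..(2 * Real.pi), g θ
      ≤ (1 / (2 * Real.pi)) * ∑ j ∈ Finset.range (2 ^ m),
      (32000000 ^ α * 320001 ^ β * (‖deriv f (pt m j)‖ ^ α * ‖f (pt m j)‖ ^ (-β))) * (2 * Real.pi * h) :=
        mul_le_mul_of_nonneg_left htot (by positivity)
    _ = 32000000 ^ α * 320001 ^ β * h * ∑ j ∈ Finset.range (2 ^ m),
      ‖deriv f (pt m j)‖ ^ α * ‖f (pt m j)‖ ^ (-β) := by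
        rw [Finset.mul_sum, Finset.mul_sum]
        refine Finset.sum_congr rfl fun j _ => ?_
        field_simp

end V5helper12.SZ
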